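import Pool.Agent.Helper61.QE.St3
import Pool.Agent.Helper68.QC.Cal

set_option autoImplicit false

open MeasureTheory Set Filter Topology Complex
open scoped ContDiff ComplexConjugate ENNReal

namespace Pool.Agent.Helper72.QE

open Pool.Agent.Helper68.QC Pool.Agent.Helper61.QE

private theorem det_lin (c : ℂ) : (lin c 0).det = ‖c‖ ^ 2 := by
  rw [det_eq, ← Complex.normSq_eq_norm_sq]
  simp [Complex.normSq_apply]

/-- change of variables by a bijection `mob A` of the disc, `A' = A⁻¹` -/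
private theorem cvar (hSUB : StSUB) (A : SL) (hA : SU A) (f : ℂ → ℂ) :
    ∫ z in D, f z = ∫ w in D, ((‖den A w‖ ^ 4)⁻¹ : ℝ) • f (mob A w) := by
  obtain ⟨s1, s2, s3, s4, s5, s6, s7, s8, s9, s10⟩ := hSUB
  have hD : ∀ A : SL, SU A → ∀ z ∈ D, den A z ≠ 0 ∧ mob A z ∈ D := by
    intro A hA z hz
    have hz1 : ‖z‖ < 1 := by simpa using hz
    have h1 := s4 A hA z hz1.le
    refine ⟨h1, ?_⟩
    have h2 := s5 A hA z h1
    have h3 : 0 < ‖den A z‖ := norm_pos_iff.2 h1
    have h4 : 0 < 1 - ‖z‖ ^ 2 := by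
      have := norm_nonneg z
      nlinarith
    have h5 : 0 < 1 - ‖mob A z‖ ^ 2 := by
      by_contra h
      push Not at h
      have := mul_nonpos_of_nonpos_of_nonneg h (sq_nonneg ‖den A z‖)
      linarith
    rw [Metric.mem_ball, dist_zero_right]
    have := norm_nonneg (mob A z)
    nlinarith
  have himg : mob A '' D = D := by
    ext z
    constructor
    · rintro ⟨w, hw, rfl⟩
      exact (hD A hA w hw).2
    · intro hz
      obtain ⟨h1, h2⟩ := hD A⁻¹ ((s7 A A hA hA).2.1) z hz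
      refine ⟨mob A⁻¹ z, h2, ?_⟩
      have := (s10 A⁻¹ z h1).1
      rwa [inv_inv] at this
  have hinj : InjOn (mob A) D := by
    intro x hx y hy h
    have h1 := (s10 A x (hD A hA x hx).1).1
    have h2 := (s10 A y (hD A hA y hy).1).1
    rw [← h1, ← h2, h]
  have h := integral_image_eq_integral_abs_det_fderiv_smul volume
    (Metric.isOpen_ball.measurableSet : MeasurableSet (D : Set ℂ))
    (f := mob A) (f' := fun w => lin ((den A w ^ 2)⁻¹) 0)
    (fun w hw => by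
      have h1 := (s2 A w (hD A hA w hw).1).hasFDerivAt.restrictScalars ℝ
      refine (h1.congr_fderiv ?_).hasFDerivWithinAt
      refine ContinuousLinearMap.ext fun v => ?_
      simp
      ring) hinj f
  rw [himg] at h
  rw [h]
  refine integral_congr_ae (Eventually.of_forall fun w => ?_)
  show |(lin ((den A w ^ 2)⁻¹) 0).det| • f (mob A w) = ((‖den A w‖ ^ 4)⁻¹ : ℝ) • f (mob A w)
  rw [det_lin, abs_of_nonneg (by positivity), norm_inv, norm_pow, inv_pow, ← pow_mul]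

private theorem su_ball (hSUB : StSUB) (A : SL) (hA : SU A) (z : ℂ) (hz : z ∈ D) :
    den A z ≠ 0 ∧ mob A z ∈ D := by
  obtain ⟨s1, s2, s3, s4, s5, s6, s7, s8, s9, s10⟩ := hSUB
  have hz1 : ‖z‖ < 1 := by simpa using hz
  have h1 := s4 A hA z hz1.le
  refine ⟨h1, ?_⟩
  have h2 := s5 A hA z h1
  have h3 : 0 < ‖den A z‖ := norm_pos_iff.2 h1
  have h4 : 0 < 1 - ‖z‖ ^ 2 := by
    have := norm_nonneg z
    nlinarith
  have h5 : 0 < 1 - ‖mob A z‖ ^ 2 := by
    by_contra h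
    push Not at h
    have := mul_nonpos_of_nonpos_of_nonneg h (sq_nonneg ‖den A z‖)
    linarith
  rw [Metric.mem_ball, dist_zero_right]
  have := norm_nonneg (mob A z)
  nlinarith

/-- only finitely many elements move the closed ball of radius `r < 1` to a set which meets it -/
private theorem fin (hSUB : StSUB) (Γ : Type) [Group Γ] (s : Γ →* SL) (hs : Fu s) (r : ℝ)
    (hr : r < 1) : {γ : Γ | ∃ z, ‖z‖ ≤ r ∧ ‖mob (s γ) z‖ ≤ r}.Finite := by
  obtain ⟨s1, s2, s3, s4, s5, s6, s7, s8, s9, s10⟩ := hSUB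
  by_cases hr0 : r < 0
  · have : {γ : Γ | ∃ z, ‖z‖ ≤ r ∧ ‖mob (s γ) z‖ ≤ r} = ∅ := by
      ext γ
      simp only [mem_setOf_eq, mem_empty_iff_false, iff_false, not_exists]
      rintro z ⟨h1, -⟩
      have := norm_nonneg z
      linarith
    rw [this]
    exact finite_empty
  push Not at hr0
  have hr2 : 0 < 1 - r ^ 2 := by nlinarith
  have hr1 : 0 < 1 - r := by linarith
  obtain ⟨q, hq⟩ : ∃ q, q = (1 - r) ^ 2 * (1 - r ^ 2) := ⟨_, rfl⟩
  have hq0 : 0 < q := by rw [hq]; positivity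
  have hq1 : q ≤ 1 := by
    rw [hq]
    have h1 : (1 - r) ^ 2 ≤ 1 := by nlinarith
    have h2 : 1 - r ^ 2 ≤ 1 := by nlinarith [sq_nonneg r]
    nlinarith [sq_nonneg (1 - r)]
  have hfin := hs.disc (Real.sqrt (1 - q)) (by
    rw [Real.sqrt_lt' one_pos]
    linarith)
  refine hfin.subset ?_
  rintro γ ⟨z, hz1, hz2⟩
  have hA := hs.su γ
  obtain ⟨A, hAe⟩ : ∃ A, A = s γ := ⟨_, rfl⟩
  rw [← hAe] at hA hz2
  show ‖mob (s γ) 0‖ ≤ _
  rw [← hAe]
  have hd := s4 A hA z (hz1.trans hr.le)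
  have h1 := s5 A hA z hd
  have h8 := s8 A hA
  have h11 : ‖A 1 1‖ = ‖A 0 0‖ := by rw [hA.1, RCLike.norm_conj]
  have hden : ‖A 0 0‖ * (1 - r) ≤ ‖den A z‖ := by
    have h2 : ‖A 1 1‖ - ‖A 1 0 * z‖ ≤ ‖den A z‖ := by
      unfold den
      have h3 := norm_sub_le (A 1 0 * z + A 1 1) (A 1 0 * z)
      rw [add_sub_cancel_left] at h3
      linarith
    have h4 : ‖A 1 0‖ ≤ ‖A 0 0‖ := by
      have := norm_nonneg (A 1 0)
      have := norm_nonneg (A 0 0)
      nlinarith
    have h5 : ‖A 1 0 * z‖ ≤ ‖A 0 0‖ * r := by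
      rw [norm_mul]
      exact mul_le_mul h4 hz1 (norm_nonneg _) (norm_nonneg _)
    rw [h11] at h2
    linarith
  have h2 : (1 - r ^ 2) * ‖den A z‖ ^ 2 ≤ 1 := by
    have h3 : 1 - r ^ 2 ≤ 1 - ‖mob A z‖ ^ 2 := by
      have := norm_nonneg (mob A z)
      nlinarith
    have h4 : (1 - r ^ 2) * ‖den A z‖ ^ 2 ≤ (1 - ‖mob A z‖ ^ 2) * ‖den A z‖ ^ 2 :=
      mul_le_mul_of_nonneg_right h3 (sq_nonneg _)
    rw [h1] at h4
    nlinarith [sq_nonneg ‖z‖]
  have h3 : q * ‖A 0 0‖ ^ 2 ≤ 1 := by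
    have h4 : (‖A 0 0‖ * (1 - r)) ^ 2 ≤ ‖den A z‖ ^ 2 :=
      pow_le_pow_left₀ (by positivity) hden 2
    have h5 : (1 - r ^ 2) * (‖A 0 0‖ * (1 - r)) ^ 2 ≤ 1 :=
      (mul_le_mul_of_nonneg_left h4 hr2.le).trans h2
    rw [hq]
    nlinarith
  have hd0 := s4 A hA 0 (by simp)
  have h4 := s5 A hA 0 hd0
  have h5 : den A 0 = A 1 1 := by
    unfold den
    ring
  rw [h5, h11, norm_zero] at h4
  have h6 : 0 < ‖A 0 0‖ ^ 2 := by
    rw [h8]
    positivity
  have h7 : q ≤ 1 - ‖mob A 0‖ ^ 2 := by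
    by_contra h
    push Not at h
    nlinarith
  apply Real.le_sqrt_of_sq_le
  linarith

/-- a function on the disc with compact support in the disc, continuous on the disc -/
private theorem integ (K : Set ℂ) (hK : IsCompact K) (hKD : K ⊆ D) (f : ℂ → ℂ)
    (hf : ContinuousOn f D) (h0 : ∀ z ∈ D, z ∉ K → f z = 0) : IntegrableOn f D := by
  have h1 : IntegrableOn f K := (hf.mono hKD).integrableOn_compact hK
  exact h1.of_forall_diff_eq_zero Metric.isOpen_ball.measurableSet (fun z hz => h0 z hz.1 hz.2)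

private theorem first (hSUB : StSUB) (Γ : Type) [Group Γ] (s : Γ →* SL) (χ : ℂ → ℝ) (hs : Fu s)
    (hχ : Chi s χ) (V : ℂ → ℂ) (hV : ContinuousOn V D)
    (hVe : ∀ γ, ∀ z ∈ D, V (mob (s γ) z) = den (s γ) z ^ 2 * V z) :
    ∫ z, V z * dzb (fun w => (χ w : ℂ)) z = 0 := by
  classical
  have hSUB' := hSUB
  obtain ⟨s1, s2, s3, s4, s5, s6, s7, s8, s9, s10⟩ := hSUB
  obtain ⟨X, hX⟩ : ∃ X : ℂ → ℂ, X = fun w => (χ w : ℂ) := ⟨_, rfl⟩
  rw [← hX]
  obtain ⟨K, hK⟩ : ∃ K, K = tsupport χ := ⟨_, rfl⟩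
  have hKc : IsCompact K := by rw [hK]; exact hχ.cpt
  have hKD : K ⊆ D := by rw [hK]; exact hχ.sub
  have hXs : ContDiff ℝ ∞ X := by
    rw [hX]
    exact Complex.ofRealCLM.contDiff.comp hχ.smooth
  have hXK : tsupport X ⊆ K := by
    rw [hK, hX]
    exact closure_mono (fun z hz => by
      intro h
      apply hz
      show ((χ z : ℝ) : ℂ) = 0
      rw [h]
      simp)
  have hX0 : ∀ z, z ∉ K → X z = 0 := fun z hz =>
    image_eq_zero_of_notMem_tsupport (fun h => hz (hXK h))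
  have hXd0 : ∀ z, z ∉ K → dzb X z = 0 := fun z hz => dzb_eq_zero (fun h => hz (hXK h))
  have hXd : Continuous (dzb X) := continuous_dzb hXs
  obtain ⟨r, hr, hKr⟩ := exists_lt_subset_ball hKc.isClosed hKD
  have hTf := fin hSUB' Γ s hs r hr
  have hsu : ∀ γ, SU (s γ) := hs.su
  have hball := fun γ => su_ball hSUB' (s γ) (hsu γ)
  have hinv : ∀ γ, ∀ z ∈ D, mob (s γ⁻¹) (mob (s γ) z) = z := by
    intro γ z hz
    rw [map_inv]
    exact (s10 (s γ) z (hball γ z hz).1).1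
  have hrD : Metric.ball (0 : ℂ) r ⊆ D := Metric.ball_subset_ball hr.le
  -- sums
  have hsum : ∀ z ∈ Metric.ball (0 : ℂ) r, ∑ γ ∈ hTf.toFinset, X (mob (s γ) z) = 1 := by
    intro z hz
    have h1 := hχ.sum z (hrD hz)
    rw [tsum_eq_sum (s := hTf.toFinset)] at h1
    · rw [hX]
      have := congrArg (fun t : ℝ => (t : ℂ)) h1
      simpa using this
    · intro γ hγ
      by_contra h
      apply hγ
      rw [Set.Finite.mem_toFinset]
      refine ⟨z, (by simpa using hz : ‖z‖ < r).le, ?_⟩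
      have h2 : mob (s γ) z ∈ K := by
        rw [hK]
        by_contra h3
        exact h (image_eq_zero_of_notMem_tsupport h3)
      exact (by simpa using hKr h2 : ‖mob (s γ) z‖ < r).le
  have hsum' : ∀ z ∈ Metric.ball (0 : ℂ) r, ∑ γ ∈ hTf.toFinset, X (mob (s γ⁻¹) z) = 1 := by
    intro z hz
    have h1 := hχ.sum z (hrD hz)
    rw [← (Equiv.inv Γ).tsum_eq (fun γ => χ (mob (s γ) z))] at h1
    rw [tsum_eq_sum (s := hTf.toFinset)] at h1
    · rw [hX]
      have := congrArg (fun t : ℝ => (t : ℂ)) h1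
      simpa using this
    · intro γ hγ
      by_contra h
      apply hγ
      rw [Set.Finite.mem_toFinset]
      have h2 : mob (s γ⁻¹) z ∈ K := by
        rw [hK]
        by_contra h3
        exact h (image_eq_zero_of_notMem_tsupport h3)
      refine ⟨mob (s γ⁻¹) z, (by simpa using hKr h2 : ‖mob (s γ⁻¹) z‖ < r).le, ?_⟩
      have h3 := hinv γ⁻¹ z (hrD hz)
      rw [inv_inv] at h3
      rw [h3]
      exact (by simpa using hz : ‖z‖ < r).le
  -- continuity of Moebius maps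
  have hmobd : ∀ γ, ∀ z ∈ D, DifferentiableAt ℂ (mob (s γ)) z := fun γ z hz =>
    (s2 (s γ) z (hball γ z hz).1).differentiableAt
  have hmobc : ∀ γ, ContinuousOn (mob (s γ)) D := fun γ z hz =>
    (hmobd γ z hz).continuousAt.continuousWithinAt
  have hdenc : ∀ γ, Continuous (den (s γ)) := by
    intro γ
    unfold den
    fun_prop
  -- the functions
  have hf1 : ∀ γ, IntegrableOn (fun z => V z * dzb X z * X (mob (s γ) z)) D := by
    intro γ
    refine integ K hKc hKD _ ?_ ?_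
    · exact (hV.mul hXd.continuousOn).mul (hXs.continuous.comp_continuousOn (hmobc γ))
    · intro z _ hz
      rw [hXd0 z hz]
      ring
  have hf2 : ∀ γ, IntegrableOn (fun w => V w * X w *
      (dzb X (mob (s γ⁻¹) w) * conj ((den (s γ⁻¹) w ^ 2)⁻¹))) D := by
    intro γ
    refine integ K hKc hKD _ ?_ ?_
    · refine (hV.mul hXs.continuous.continuousOn).mul ?_
      refine (hXd.comp_continuousOn (hmobc γ⁻¹)).mul ?_
      refine Complex.continuous_conj.comp_continuousOn ?_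
      refine ContinuousOn.inv₀ ((hdenc γ⁻¹).pow 2).continuousOn ?_
      intro w hw
      exact pow_ne_zero 2 (hball γ⁻¹ w hw).1
    · intro z _ hz
      rw [hX0 z hz]
      ring
  have key : ∀ γ, ∫ z in D, V z * dzb X z * X (mob (s γ) z) =
      ∫ w in D, V w * X w * (dzb X (mob (s γ⁻¹) w) * conj ((den (s γ⁻¹) w ^ 2)⁻¹)) := by
    intro γ
    rw [cvar hSUB' (s γ⁻¹) (hsu γ⁻¹)]
    refine setIntegral_congr_fun Metric.isOpen_ball.measurableSet fun w hw => ?_
    have h1 := hinv γ⁻¹ w hw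
    rw [inv_inv] at h1
    have h2 := hVe γ⁻¹ w hw
    have hd := (hball γ⁻¹ w hw).1
    show ((‖den (s γ⁻¹) w‖ ^ 4)⁻¹ : ℝ) • (V (mob (s γ⁻¹) w) * dzb X (mob (s γ⁻¹) w) *
      X (mob (s γ) (mob (s γ⁻¹) w))) = _
    rw [h1, h2, Complex.real_smul]
    generalize den (s γ⁻¹) w = d at hd
    have h3 : (((‖d‖ ^ 4)⁻¹ : ℝ) : ℂ) = (d ^ 2)⁻¹ * (conj d ^ 2)⁻¹ := by
      have h4 : ((‖d‖ ^ 4 : ℝ) : ℂ) = d ^ 2 * conj d ^ 2 := by
        have h5 : ((‖d‖ ^ 2 : ℝ) : ℂ) = d * conj d := by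
          rw [Complex.mul_conj, Complex.normSq_eq_norm_sq]
        have h6 : ((‖d‖ ^ 4 : ℝ) : ℂ) = ((‖d‖ ^ 2 : ℝ) : ℂ) ^ 2 := by
          push_cast
          ring
        rw [h6, h5]
        ring
      rw [Complex.ofReal_inv, h4, mul_inv]
    rw [h3, map_inv₀, map_pow]
    have h7 : d ^ 2 ≠ 0 := pow_ne_zero 2 hd
    field_simp
  have hvan : ∀ w ∈ Metric.ball (0 : ℂ) r, ∑ γ ∈ hTf.toFinset,
      (dzb X (mob (s γ⁻¹) w) * conj ((den (s γ⁻¹) w ^ 2)⁻¹)) = 0 := by
    intro w hw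
    have hwD := hrD hw
    have hXdiff : ∀ z, DifferentiableAt ℝ X z := fun z =>
      (hXs.differentiable (by simp)).differentiableAt
    have h1 : ∀ γ, dzb (fun z => X (mob (s γ⁻¹) z)) w =
        dzb X (mob (s γ⁻¹) w) * conj ((den (s γ⁻¹) w ^ 2)⁻¹) := by
      intro γ
      have h2 := hmobd γ⁻¹ w hwD
      have h3 : DifferentiableAt ℝ (mob (s γ⁻¹)) w := h2.restrictScalars ℝ
      rw [dzb_comp (hXdiff _) h3, dzb_holo h2, dz_holo h2,
        (s2 (s γ⁻¹) w (hball γ⁻¹ w hwD).1).deriv]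
      ring
    have h4 : ∀ S : Finset Γ, dzb (fun z => ∑ γ ∈ S, X (mob (s γ⁻¹) z)) w =
        ∑ γ ∈ S, dzb (fun z => X (mob (s γ⁻¹) z)) w ∧
        DifferentiableAt ℝ (fun z => ∑ γ ∈ S, X (mob (s γ⁻¹) z)) w := by
      intro S
      have hd : ∀ γ, DifferentiableAt ℝ (fun z => X (mob (s γ⁻¹) z)) w := fun γ =>
        (hXdiff _).comp w ((hmobd γ⁻¹ w hwD).restrictScalars ℝ)
      induction S using Finset.induction_on with
      | empty => simp
      | insert a S ha ih =>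
        simp only [Finset.sum_insert ha]
        refine ⟨?_, (hd a).add ih.2⟩
        rw [dzb_add (hd a) ih.2, ih.1]
    have h5 : dzb (fun z => ∑ γ ∈ hTf.toFinset, X (mob (s γ⁻¹) z)) w = 0 := by
      have h6 : (fun z => ∑ γ ∈ hTf.toFinset, X (mob (s γ⁻¹) z)) =ᶠ[𝓝 w] fun _ => (1 : ℂ) := by
        filter_upwards [Metric.isOpen_ball.mem_nhds hw] with z hz
        exact hsum' z hz
      unfold dzb
      rw [h6.fderiv_eq]
      simp
    rw [(h4 _).1] at h5
    rw [← h5]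
    exact Finset.sum_congr rfl fun γ _ => (h1 γ).symm
  have hD1 : ∫ z, V z * dzb X z = ∫ z in D, V z * dzb X z := by
    rw [setIntegral_eq_integral_of_forall_compl_eq_zero]
    intro z hz
    rw [hXd0 z (fun h => hz (hKD h)), mul_zero]
  rw [hD1]
  calc ∫ z in D, V z * dzb X z
      = ∫ z in D, ∑ γ ∈ hTf.toFinset, V z * dzb X z * X (mob (s γ) z) := by
        refine setIntegral_congr_fun Metric.isOpen_ball.measurableSet fun z hz => ?_
        show V z * dzb X z = ∑ γ ∈ hTf.toFinset, V z * dzb X z * X (mob (s γ) z)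
        rw [← Finset.mul_sum]
        by_cases h : z ∈ K
        · rw [hsum z (hKr h), mul_one]
        · rw [hXd0 z h]
          ring
    _ = ∑ γ ∈ hTf.toFinset, ∫ z in D, V z * dzb X z * X (mob (s γ) z) :=
        integral_finset_sum _ fun γ _ => hf1 γ
    _ = ∑ γ ∈ hTf.toFinset, ∫ w in D, V w * X w *
          (dzb X (mob (s γ⁻¹) w) * conj ((den (s γ⁻¹) w ^ 2)⁻¹)) :=
        Finset.sum_congr rfl fun γ _ => key γ
    _ = ∫ w in D, ∑ γ ∈ hTf.toFinset, V w * X w *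
          (dzb X (mob (s γ⁻¹) w) * conj ((den (s γ⁻¹) w ^ 2)⁻¹)) :=
        (integral_finset_sum _ fun γ _ => hf2 γ).symm
    _ = ∫ w in D, (0 : ℂ) := by
        refine setIntegral_congr_fun Metric.isOpen_ball.measurableSet fun w hw => ?_
        show ∑ γ ∈ hTf.toFinset, V w * X w *
          (dzb X (mob (s γ⁻¹) w) * conj ((den (s γ⁻¹) w ^ 2)⁻¹)) = 0
        rw [← Finset.mul_sum]
        by_cases h : w ∈ K
        · rw [hvan w (hKr h), mul_zero]
        · rw [hX0 w h]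
          ring
    _ = 0 := by simp

theorem pUNW (hSUB : Pool.Agent.Helper61.QE.StSUB) (hFUX : Pool.Agent.Helper61.QE.StFUX)
    (hIND : Pool.Agent.Helper61.QE.StIND) : Pool.Agent.Helper61.QE.StUNW := by
  have _ := hFUX
  have _ := hIND
  intro Γ _ s F χ hs _ hχ
  refine ⟨fun V hV hVe => first hSUB Γ s χ hs hχ V hV hVe, fun V hV hVe => ?_⟩
  have h1 := first hSUB Γ s χ hs hχ (fun z => conj (V z))
    (Complex.continuous_conj.comp_continuousOn hV) (fun γ z hz => by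
      show conj (V (mob (s γ) z)) = den (s γ) z ^ 2 * conj (V z)
      rw [hVe γ z hz, map_mul, map_pow, Complex.conj_conj])
  have hXs : ContDiff ℝ ∞ (fun w => (χ w : ℂ)) :=
    Complex.ofRealCLM.contDiff.comp hχ.smooth
  have h2 : ∀ z, dz (fun w => (χ w : ℂ)) z = conj (dzb (fun w => (χ w : ℂ)) z) := by
    intro z
    have h3 : DifferentiableAt ℝ (fun w => (χ w : ℂ)) z :=
      (hXs.differentiable (by simp)).differentiableAt
    have h4 := dz_conj h3
    simp only [Complex.conj_ofReal] at h4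
    exact h4
  have h3 : ∫ z, V z * dz (fun w => (χ w : ℂ)) z =
      ∫ z, conj (conj (V z) * dzb (fun w => (χ w : ℂ)) z) := by
    refine integral_congr_ae (Eventually.of_forall fun z => ?_)
    show V z * dz (fun w => (χ w : ℂ)) z = conj (conj (V z) * dzb (fun w => (χ w : ℂ)) z)
    rw [h2, map_mul, Complex.conj_conj]
  rw [h3, integral_conj, h1, map_zero]

end Pool.Agent.Helper72.QE
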